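import Pool.Agent.H354.BG.Stm

set_option autoImplicit false

/-! Project BG (helper354), task NEARC: nearness is decidable. -/

namespace Pool.Agent.H415.BG.NEARC

open Pool.Agent.H354.BG
open Pool.Agent.H482R3.EA (W inv Syl)
open Pool.Agent.H482R3.EB (wp)

private theorem cp_of {α : Type} [Primcodable α] {p : α → Prop} (f : α → Bool) (hf : Computable f)
    (h : ∀ a, p a ↔ f a = true) : ComputablePred p := by
  rw [ComputablePred.computable_iff]
  exact ⟨f, hf, funext fun a => propext (h a)⟩

private theorem cp_to {α : Type} [Primcodable α] {p : α → Prop} (h : ComputablePred p) :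
    ∃ f : α → Bool, Computable f ∧ ∀ a, p a ↔ f a = true := by
  rw [ComputablePred.computable_iff] at h
  obtain ⟨f, hf, h⟩ := h
  exact ⟨f, hf, fun a => Iff.of_eq (congrFun h a)⟩

private theorem comp_eq {α β : Type} [Primcodable α] [Primcodable β] [DecidableEq β]
    {f g : α → β} (hf : Computable f) (hg : Computable g) :
    Computable (fun a => decide (f a = g a)) := by
  have h : Primrec (fun q : β × β => decide (q.1 = q.2)) := by
    have := (Primrec.eq (α := β))
    exact this.decide
  exact h.to_comp.comp (hf.pair hg)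

private theorem comp_and {α : Type} [Primcodable α] {f g : α → Bool}
    (hf : Computable f) (hg : Computable g) : Computable (fun a => f a && g a) :=
  (Primrec.and.to_comp).comp hf hg

private theorem comp_or {α : Type} [Primcodable α] {f g : α → Bool}
    (hf : Computable f) (hg : Computable g) : Computable (fun a => f a || g a) :=
  (Primrec.or.to_comp).comp hf hg

private theorem cas {P X1 X2 X3 : Type} [Primcodable P] [Primcodable X1] [Primcodable X2]
    [Primcodable X3] (f1 : P → X1 → Bool) (f2 : P → X2 → Bool) (f3 : P → X3 → Bool)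
    (h1 : Computable₂ f1) (h2 : Computable₂ f2) (h3 : Computable₂ f3) :
    Computable (fun p : P × Option (X1 ⊕ (X2 ⊕ X3)) => (Option.casesOn p.2 false
      (fun s => (Sum.casesOn s (fun x => f1 p.1 x) (fun y => (Sum.casesOn y (fun x => f2 p.1 x)
        (fun x => f3 p.1 x) : Bool)) : Bool)) : Bool)) := by
  refine Computable.option_casesOn Computable.snd (Computable.const false) ?_
  have hp : Computable (fun q : (P × Option (X1 ⊕ (X2 ⊕ X3))) × (X1 ⊕ (X2 ⊕ X3)) => q.1.1) :=
    Computable.fst.comp Computable.fst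
  refine Computable.sumCasesOn (f := fun q : (P × Option (X1 ⊕ (X2 ⊕ X3))) × (X1 ⊕ (X2 ⊕ X3)) =>
    q.2) Computable.snd ?_ ?_
  · exact h1.comp (hp.comp Computable.fst) Computable.snd
  · refine Computable.sumCasesOn (f := fun q : ((P × Option (X1 ⊕ (X2 ⊕ X3))) ×
      (X1 ⊕ (X2 ⊕ X3))) × (X2 ⊕ X3) => q.2) Computable.snd ?_ ?_
    · exact h2.comp (hp.comp (Computable.fst.comp Computable.fst)) Computable.snd
    · exact h3.comp (hp.comp (Computable.fst.comp Computable.fst)) Computable.snd

section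

variable {G V Y : Type} [Primcodable G] [Primcodable V] [Primcodable Y] [DecidableEq V]

private theorem n1 {cb : V → Bool} (hcb : Computable cb) {tP : G × G → Bool}
    (htP : Computable tP) {tE : V × (G × G) → Bool} (htE : Computable tE) :
    Computable₂ (fun (p : G × V) (x : G × V × Y) => cb x.2.1 && (cb p.2 &&
      (tP (x.1, p.1) || (decide (p.2 = x.2.1) && tE (p.2, (x.1, p.1)))))) := by
  have h1 : Computable (fun q : (G × V) × (G × V × Y) => q.2.1) :=
    Computable.fst.comp Computable.snd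
  have h2 : Computable (fun q : (G × V) × (G × V × Y) => q.1.1) :=
    Computable.fst.comp Computable.fst
  have h3 : Computable (fun q : (G × V) × (G × V × Y) => q.1.2) :=
    Computable.snd.comp Computable.fst
  have h4 : Computable (fun q : (G × V) × (G × V × Y) => q.2.2.1) :=
    Computable.fst.comp (Computable.snd.comp Computable.snd)
  have h5 : Computable (fun q : (G × V) × (G × V × Y) => (q.2.1, q.1.1)) := h1.pair h2
  exact comp_and (hcb.comp h4) (comp_and (hcb.comp h3) (comp_or (htP.comp h5)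
    (comp_and (comp_eq h3 h4) (htE.comp (h3.pair h5)))))

private theorem n2 {cb : V → Bool} (hcb : Computable cb) {tP : G × G → Bool}
    (htP : Computable tP) :
    Computable₂ (fun (p : G × V) (x : G × Y) => cb p.2 && tP (x.1, p.1)) := by
  have h1 : Computable (fun q : (G × V) × (G × Y) => q.2.1) := Computable.fst.comp Computable.snd
  have h2 : Computable (fun q : (G × V) × (G × Y) => q.1.1) := Computable.fst.comp Computable.fst
  have h3 : Computable (fun q : (G × V) × (G × Y) => q.1.2) := Computable.snd.comp Computable.fst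
  exact comp_and (hcb.comp h3) (htP.comp (h1.pair h2))

private theorem n3 {cb : V → Bool} (hcb : Computable cb) {tO : (V × V) × (G × G) → Bool}
    (htO : Computable tO) :
    Computable₂ (fun (p : G × V) (x : G × V × V × Y) => cb p.2 &&
      (decide (p.2 = x.2.1) && tO ((x.2.1, x.2.2.1), (x.1, p.1)))) := by
  have h1 : Computable (fun q : (G × V) × (G × V × V × Y) => q.2.1) :=
    Computable.fst.comp Computable.snd
  have h2 : Computable (fun q : (G × V) × (G × V × V × Y) => q.1.1) :=
    Computable.fst.comp Computable.fst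
  have h3 : Computable (fun q : (G × V) × (G × V × V × Y) => q.1.2) :=
    Computable.snd.comp Computable.fst
  have h4 : Computable (fun q : (G × V) × (G × V × V × Y) => q.2.2) :=
    Computable.snd.comp Computable.snd
  have h5 : Computable (fun q : (G × V) × (G × V × V × Y) => q.2.2.1) := Computable.fst.comp h4
  have h6 : Computable (fun q : (G × V) × (G × V × V × Y) => q.2.2.2.1) :=
    Computable.fst.comp (Computable.snd.comp h4)
  exact comp_and (hcb.comp h3) (comp_and (comp_eq h3 h5)
    (htO.comp ((h5.pair h6).pair (h1.pair h2))))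

private theorem m1 {cb : V → Bool} (hcb : Computable cb) {tP : G × G → Bool}
    (htP : Computable tP) :
    Computable₂ (fun (g : G) (x : G × V × Y) => cb x.2.1 && tP (x.1, g)) := by
  have h1 : Computable (fun q : G × (G × V × Y) => q.2.1) := Computable.fst.comp Computable.snd
  have h2 : Computable (fun q : G × (G × V × Y) => q.1) := Computable.fst
  have h4 : Computable (fun q : G × (G × V × Y) => q.2.2.1) :=
    Computable.fst.comp (Computable.snd.comp Computable.snd)
  exact comp_and (hcb.comp h4) (htP.comp (h1.pair h2))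

private theorem m2 {tP : G × G → Bool} (htP : Computable tP) :
    Computable₂ (fun (g : G) (x : G × Y) => tP (x.1, g)) := by
  have h1 : Computable (fun q : G × (G × Y) => q.2.1) := Computable.fst.comp Computable.snd
  have h2 : Computable (fun q : G × (G × Y) => q.1) := Computable.fst
  exact htP.comp (h1.pair h2)

private theorem l1 {cb : V → Bool} (hcb : Computable cb) {tO : (V × V) × (G × G) → Bool}
    (htO : Computable tO) :
    Computable₂ (fun (p : G × V × V) (x : G × V × Y) => cb x.2.1 &&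
      (decide (p.2.1 = x.2.1) && tO (p.2, (p.1, x.1)))) := by
  have h1 : Computable (fun q : (G × V × V) × (G × V × Y) => q.2.1) :=
    Computable.fst.comp Computable.snd
  have h2 : Computable (fun q : (G × V × V) × (G × V × Y) => q.1.1) :=
    Computable.fst.comp Computable.fst
  have h3 : Computable (fun q : (G × V × V) × (G × V × Y) => q.1.2) :=
    Computable.snd.comp Computable.fst
  have h4 : Computable (fun q : (G × V × V) × (G × V × Y) => q.1.2.1) :=
    Computable.fst.comp h3
  have h5 : Computable (fun q : (G × V × V) × (G × V × Y) => q.2.2.1) :=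
    Computable.fst.comp (Computable.snd.comp Computable.snd)
  exact comp_and (hcb.comp h5) (comp_and (comp_eq h4 h5) (htO.comp (h3.pair (h2.pair h1))))

private theorem l3 {tL : (V × V) × (G × G) → Bool} (htL : Computable tL) :
    Computable₂ (fun (p : G × V × V) (x : G × V × V × Y) => decide (p.2.1 = x.2.1) &&
      (decide (p.2.2 = x.2.2.1) && tL (p.2, (x.1, p.1)))) := by
  have h1 : Computable (fun q : (G × V × V) × (G × V × V × Y) => q.2.1) :=
    Computable.fst.comp Computable.snd
  have h2 : Computable (fun q : (G × V × V) × (G × V × V × Y) => q.1.1) :=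
    Computable.fst.comp Computable.fst
  have h3 : Computable (fun q : (G × V × V) × (G × V × V × Y) => q.1.2) :=
    Computable.snd.comp Computable.fst
  have h4 : Computable (fun q : (G × V × V) × (G × V × V × Y) => q.1.2.1) :=
    Computable.fst.comp h3
  have h5 : Computable (fun q : (G × V × V) × (G × V × V × Y) => q.1.2.2) :=
    Computable.snd.comp h3
  have h6 : Computable (fun q : (G × V × V) × (G × V × V × Y) => q.2.2) :=
    Computable.snd.comp Computable.snd
  have h7 : Computable (fun q : (G × V × V) × (G × V × V × Y) => q.2.2.1) :=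
    Computable.fst.comp h6
  have h8 : Computable (fun q : (G × V × V) × (G × V × V × Y) => q.2.2.2.1) :=
    Computable.fst.comp (Computable.snd.comp h6)
  exact comp_and (comp_eq h4 h7) (comp_and (comp_eq h5 h8) (htL.comp (h3.pair (h1.pair h2))))

end

private theorem q1 (D : Dat) (U : Finset (Fin D.r)) (b : Fin D.r) (cb : Fin D.n → Bool)
    (tP : W (Fin D.n) × W (Fin D.n) → Bool)
    (tE : Fin D.n × (W (Fin D.n) × W (Fin D.n)) → Bool)
    (tO : (Fin D.n × Fin D.n) × (W (Fin D.n) × W (Fin D.n)) → Bool)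
    (hcb : ∀ v, D.β v = b ↔ cb v = true)
    (hP : ∀ g' g, sameP D U b g' g ↔ tP (g', g) = true)
    (hE : ∀ v g' g, (∃ w, okL D U b v w ∧ dcs D U b w g' g) ↔ tE (v, (g', g)) = true)
    (hO : ∀ v w g' g, (okL D U b v w ∧ onL D U b w g' g) ↔ tO ((v, w), (g', g)) = true)
    (h1 : Computable₂ (fun (p : W (Fin D.n) × Fin D.n) (x : W (Fin D.n) × Fin D.n × Bool × ℕ) =>
      cb x.2.1 && (cb p.2 &&
      (tP (x.1, p.1) || (decide (p.2 = x.2.1) && tE (p.2, (x.1, p.1)))))))
    (h2 : Computable₂ (fun (p : W (Fin D.n) × Fin D.n) (x : W (Fin D.n) × W (Fin D.n)) =>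
      cb p.2 && tP (x.1, p.1)))
    (h3 : Computable₂ (fun (p : W (Fin D.n) × Fin D.n)
      (x : W (Fin D.n) × Fin D.n × Fin D.n × W ℕ) => cb p.2 &&
      (decide (p.2 = x.2.1) && tO ((x.2.1, x.2.2.1), (x.1, p.1))))) :
    ComputablePred (fun p : (W (Fin D.n) × Fin D.n) × Option (Sy D) =>
      okO D U b p.2 ∧ D.β p.1.2 = b ∧ NearW D U b p.1.1 p.1.2 p.2) := by
  have h := cas (P := W (Fin D.n) × Fin D.n) (X1 := W (Fin D.n) × Fin D.n × Bool × ℕ)
      (X2 := W (Fin D.n) × W (Fin D.n)) (X3 := W (Fin D.n) × Fin D.n × Fin D.n × W ℕ)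
      _ _ _ h1 h2 h3
  refine cp_of _ h ?_
  rintro ⟨⟨g, v⟩, s⟩
  rcases s with _ | (⟨g', v', sg, n⟩ | (⟨g', y⟩ | ⟨g', v', w', y⟩))
  · simp [NearW]
  · simp only [okO, okS, NearW, hP, hE, hcb, Bool.or_eq_true, Bool.and_eq_true,
      decide_eq_true_eq]
  · simp only [okO, okS, NearW, hP, hcb, Bool.and_eq_true, true_and]
  · simp only [okO, okS, NearW, ← hO, hcb, Bool.and_eq_true, decide_eq_true_eq]
    tauto

private theorem q2 (D : Dat) (U : Finset (Fin D.r)) (b : Fin D.r) (cb : Fin D.n → Bool)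
    (tP : W (Fin D.n) × W (Fin D.n) → Bool)
    (hcb : ∀ v, D.β v = b ↔ cb v = true)
    (hP : ∀ g' g, sameP D U b g' g ↔ tP (g', g) = true)
    (h1 : Computable₂ (fun (g : W (Fin D.n)) (x : W (Fin D.n) × Fin D.n × Bool × ℕ) =>
      cb x.2.1 && tP (x.1, g)))
    (h2 : Computable₂ (fun (g : W (Fin D.n)) (x : W (Fin D.n) × W (Fin D.n)) => tP (x.1, g))) :
    ComputablePred (fun p : W (Fin D.n) × Option (Sy D) =>
      okO D U b p.2 ∧ InDB D U b p.1 p.2) := by
  have h := cas (P := W (Fin D.n)) (X1 := W (Fin D.n) × Fin D.n × Bool × ℕ)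
      (X2 := W (Fin D.n) × W (Fin D.n)) (X3 := W (Fin D.n) × Fin D.n × Fin D.n × W ℕ)
      _ _ (fun _ _ => false) h1 h2 (Computable.const false)
  refine cp_of _ h ?_
  rintro ⟨g, s⟩
  rcases s with _ | (⟨g', v', sg, n⟩ | (⟨g', y⟩ | ⟨g', v', w', y⟩))
  · simp [InDB]
  · simp only [okO, okS, InDB, hP, hcb, Bool.and_eq_true]
  · simp only [okO, okS, InDB, hP, true_and]
  · simp [InDB]

private theorem q3 (D : Dat) (U : Finset (Fin D.r)) (b : Fin D.r) (cb : Fin D.n → Bool)
    (tO tL : (Fin D.n × Fin D.n) × (W (Fin D.n) × W (Fin D.n)) → Bool)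
    (hcb : ∀ v, D.β v = b ↔ cb v = true)
    (hO : ∀ v w g' g, (okL D U b v w ∧ onL D U b w g' g) ↔ tO ((v, w), (g', g)) = true)
    (hL : ∀ v w g' g, (okL D U b v w ∧ sameL D U b w g' g) ↔ tL ((v, w), (g', g)) = true)
    (h1 : Computable₂ (fun (p : W (Fin D.n) × Fin D.n × Fin D.n)
      (x : W (Fin D.n) × Fin D.n × Bool × ℕ) => cb x.2.1 &&
      (decide (p.2.1 = x.2.1) && tO (p.2, (p.1, x.1)))))
    (h3 : Computable₂ (fun (p : W (Fin D.n) × Fin D.n × Fin D.n)
      (x : W (Fin D.n) × Fin D.n × Fin D.n × W ℕ) => decide (p.2.1 = x.2.1) &&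
      (decide (p.2.2 = x.2.2.1) && tL (p.2, (x.1, p.1))))) :
    ComputablePred (fun p : (W (Fin D.n) × Fin D.n × Fin D.n) × Option (Sy D) =>
      okO D U b p.2 ∧ okL D U b p.1.2.1 p.1.2.2 ∧ InDL D U b p.1.1 p.1.2.1 p.1.2.2 p.2) := by
  have h := cas (P := W (Fin D.n) × Fin D.n × Fin D.n)
      (X1 := W (Fin D.n) × Fin D.n × Bool × ℕ)
      (X2 := W (Fin D.n) × W (Fin D.n)) (X3 := W (Fin D.n) × Fin D.n × Fin D.n × W ℕ)
      _ (fun _ _ => false) _ h1 (Computable.const false) h3
  refine cp_of _ h ?_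
  rintro ⟨⟨g, v, w⟩, s⟩
  rcases s with _ | (⟨g', v', sg, n⟩ | (⟨g', y⟩ | ⟨g', v', w', y⟩))
  · simp [InDL]
  · simp only [okO, okS, InDL, ← hO, hcb, Bool.and_eq_true, decide_eq_true_eq]
    tauto
  · simp [InDL]
  · simp only [okO, okS, InDL, ← hL, Bool.and_eq_true, decide_eq_true_eq]
    constructor
    · rintro ⟨_, h2, h3, h4, h5⟩
      exact ⟨h3, h4, h2, h5⟩
    · rintro ⟨h3, h4, h2, h5⟩
      refine ⟨?_, h2, h3, h4, h5⟩
      rw [← h3, ← h4]
      exact h2

theorem t_NEARX (hs : S_SAMEC) (hd : S_DCSC) (_hbas : S_BASX) : S_NEARX := by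
  intro D U b hb hW hR
  obtain ⟨hp, hl, ho⟩ := hs D U b hb hW
  obtain ⟨tP, ctP, htP⟩ := cp_to hp
  obtain ⟨tL, ctL, htL⟩ := cp_to hl
  obtain ⟨tO, ctO, htO⟩ := cp_to ho
  obtain ⟨tD, ctD, htD⟩ := cp_to (hd D U b hb hW hR)
  have ccb : Computable (fun v : Fin D.n => decide (D.β v = b)) := (Primrec.dom_finite _).to_comp
  have hex : ComputablePred (fun x : Fin D.n × (W (Fin D.n) × W (Fin D.n)) =>
      ∃ w : Fin D.n, okL D U b x.1 w ∧ dcs D U b w x.2.1 x.2.2) := by
    refine (Pool.Agent.H482R3.EB.Asm.cp (Fin D.n × (W (Fin D.n) × W (Fin D.n))) inferInstance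
      D.n).2.2.2 (fun w x => okL D U b x.1 w ∧ dcs D U b w x.2.1 x.2.2) fun w => ?_
    refine cp_of (fun x : Fin D.n × (W (Fin D.n) × W (Fin D.n)) => tD ((x.1, w), x.2)) ?_ ?_
    · exact ctD.comp ((Computable.fst.pair (Computable.const w)).pair Computable.snd)
    · rintro ⟨v, g', g⟩
      exact htD ((v, w), (g', g))
  obtain ⟨tE, ctE, htE⟩ := cp_to hex
  have hP : ∀ g' g, sameP D U b g' g ↔ tP (g', g) = true := fun g' g => htP (g', g)
  have hE : ∀ v g' g, (∃ w, okL D U b v w ∧ dcs D U b w g' g) ↔ tE (v, (g', g)) = true :=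
    fun v g' g => htE (v, (g', g))
  have hO : ∀ v w g' g, (okL D U b v w ∧ onL D U b w g' g) ↔ tO ((v, w), (g', g)) = true :=
    fun v w g' g => htO ((v, w), (g', g))
  have hL : ∀ v w g' g, (okL D U b v w ∧ sameL D U b w g' g) ↔ tL ((v, w), (g', g)) = true :=
    fun v w g' g => htL ((v, w), (g', g))
  have hcb : ∀ v, D.β v = b ↔ decide (D.β v = b) = true := fun v => by
    rw [decide_eq_true_eq]
  refine ⟨?_, ?_, ?_⟩
  · exact q1 D U b _ tP tE tO hcb hP hE hO (n1 (Y := Bool × ℕ) ccb ctP ctE)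
      (n2 (Y := W (Fin D.n)) ccb ctP) (n3 (Y := W ℕ) ccb ctO)
  · exact q2 D U b _ tP hcb hP (m1 (Y := Bool × ℕ) ccb ctP) (m2 (Y := W (Fin D.n)) ctP)
  · exact q3 D U b _ tO tL hcb hO hL (l1 (Y := Bool × ℕ) ccb ctO) (l3 (Y := W ℕ) ctL)

end Pool.Agent.H415.BG.NEARC
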