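import Pool.Agent.H380.BG.Stm

/-!
# The instance of the modular discriminant of the structure `Ok` of project BG
-/

set_option autoImplicit false

namespace Pool.Agent.H415.BG

open Complex MeasureTheory Filter Topology Set MatrixGroups
open UpperHalfPlane hiding I
open scoped ComplexConjugate Real
open Pool.Agent.X3.Tau (tau tau_zero)
open Pool.Agent.H575.RD
open Pool.Agent.W475.BG (Shrt Prim Dat Ok)

/-- `L(Δ, s)` -/
noncomputable def LMd (s : ℂ) : ℂ := ((2 * Real.pi : ℝ) : ℂ) ^ s * (Gamma s)⁻¹ * LamM s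

theorem LMd_eq (s : ℂ) : LMd s = LamM s * (2 / Gammaℂ s) := by
  unfold LMd
  have h2 : (2 * (Real.pi : ℂ)) ^ (-s) ≠ 0 := by
    rw [Ne, Complex.cpow_eq_zero_iff]
    rintro ⟨h, -⟩
    have : (2 * Real.pi : ℝ) = 0 := by exact_mod_cast h
    have := Real.pi_pos
    linarith
  rw [Gammaℂ_def]
  have h3 : ((2 * Real.pi : ℝ) : ℂ) ^ s = ((2 * (Real.pi : ℂ)) ^ (-s))⁻¹ := by
    rw [Complex.cpow_neg, inv_inv]
    push_cast
    rfl
  rw [h3]
  generalize (2 * (Real.pi : ℂ)) ^ (-s) = x at h2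
  rw [div_eq_mul_inv, mul_inv, mul_inv]
  ring

theorem LMd_eq_L (s : ℂ) :
    LMd s = ModularForm.L (k := 12) (by norm_num) CuspForm.discriminant s := by
  rw [LMd_eq, LamM_eq]
  rfl

theorem LMd_series {s : ℂ} (hs : 7 < s.re) :
    HasSum (fun n : ℕ => ((tau n : ℤ) : ℂ) * (n : ℂ) ^ (-s)) (LMd s) := by
  have h := CuspForm.hasSum_L (k := 12) (by norm_num) CuspForm.discriminant (s := s)
    (by push_cast; linarith)
  rw [Subgroup.strictWidthInfty_SL2Z] at h
  rw [LMd_eq_L]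
  simp only [Complex.ofReal_one, Complex.one_cpow, one_mul] at h
  have e : (fun n : ℕ => ((tau n : ℤ) : ℂ) * (n : ℂ) ^ (-s)) =
      fun n : ℕ => (qExpansion 1 CuspForm.discriminant).coeff n / (n : ℂ) ^ s := by
    funext n
    rw [coeff_tau, Complex.cpow_neg, div_eq_mul_inv]
  rw [e]
  exact h

theorem re_shift (s : ℂ) : (s + 11 / 2 : ℂ).re = s.re + 11 / 2 := by
  have : (11 / 2 : ℂ) = ((11 / 2 : ℝ) : ℂ) := by push_cast; rfl
  rw [this, add_re, ofReal_re]

theorem la_series {s : ℂ} (hs : 2 ≤ s.re) :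
    HasSum (fun n : ℕ => (la n : ℂ) * (n : ℂ) ^ (-s)) (LMd (s + 11 / 2)) := by
  have h := LMd_series (s := s + 11 / 2) (by rw [re_shift]; linarith)
  have e : (fun n : ℕ => (la n : ℂ) * (n : ℂ) ^ (-s)) =
      fun n : ℕ => ((tau n : ℤ) : ℂ) * (n : ℂ) ^ (-(s + 11 / 2)) := by
    funext n
    rcases Nat.eq_zero_or_pos n with rfl | hn
    · rw [la_zero, tau_zero]
      simp
    · have hn0 : (n : ℂ) ≠ 0 := by exact_mod_cast hn.ne'
      have hnr : (0 : ℝ) < n := by exact_mod_cast hn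
      unfold la
      rw [neg_add, Complex.cpow_add _ _ hn0, Complex.ofReal_div, Complex.ofReal_cpow hnr.le,
        Complex.cpow_neg _ (11 / 2)]
      push_cast
      rw [div_eq_mul_inv]
      ring
  rw [e]
  exact h

theorem la_LSeries {s : ℂ} (hs : 2 ≤ s.re) :
    LSeries (fun n => (la n : ℂ)) s = LMd (s + 11 / 2) := by
  rw [← (la_series hs).tsum_eq]
  unfold LSeries
  refine tsum_congr fun n => ?_
  rcases Nat.eq_zero_or_pos n with rfl | hn
  · rw [LSeries.term_zero, la_zero, Complex.ofReal_zero, zero_mul]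
  · rw [LSeries.term_of_ne_zero hn.ne', Complex.cpow_neg, div_eq_mul_inv]

theorem Lam_ser {s : ℂ} (hs : 2 ≤ s.re) :
    2 * LamM (s + 11 / 2) = (Gammaℝ (s + 11 / 2) * Gammaℝ (s + 13 / 2)) *
      LSeries (fun n => (la n : ℂ)) s := by
  have e1 : s + 13 / 2 = s + 11 / 2 + 1 := by ring
  have h0 : Gammaℂ (s + 11 / 2) ≠ 0 := by
    rw [← Gammaℝ_mul_Gammaℝ_add_one]
    refine mul_ne_zero (Gammaℝ_ne_zero_of_re_pos ?_) (Gammaℝ_ne_zero_of_re_pos ?_)
    · rw [re_shift]
      linarith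
    · rw [add_re, re_shift, one_re]
      linarith
  rw [e1, Gammaℝ_mul_Gammaℝ_add_one, la_LSeries hs, LMd_eq]
  generalize Gammaℂ (s + 11 / 2) = x at h0
  generalize LamM (s + 11 / 2) = y
  field_simp

/-- the object -/
noncomputable def DD : Dat where
  d := 2
  mu := ![11 / 2, 13 / 2]
  Q := 1
  a := fun n => (la n : ℂ)
  Lam := fun s => 2 * LamM (s + 11 / 2)
  w := 1

theorem growth : ∃ A : ℝ, 0 ≤ A ∧ ∀ n : ℕ, 1 ≤ n → ‖(la n : ℂ)‖ ≤ (n : ℝ) ^ A := by
  obtain ⟨C, hC, h⟩ := la_bound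
  obtain ⟨B, hB⟩ := pow_unbounded_of_one_lt C (one_lt_two : (1 : ℝ) < 2)
  refine ⟨1 / 2 + B, by positivity, fun n hn => ?_⟩
  rw [Complex.norm_real, Real.norm_eq_abs]
  rcases Nat.lt_or_ge 1 n with h1 | h1
  · have hn0 : (0 : ℝ) < n := by exact_mod_cast hn
    have hn2 : (2 : ℝ) ≤ n := by exact_mod_cast h1
    refine (h n).trans ?_
    rw [Real.rpow_add hn0, ← Real.sqrt_eq_rpow, mul_comm, Real.rpow_natCast]
    refine mul_le_mul_of_nonneg_left ?_ (Real.sqrt_nonneg _)
    exact hB.le.trans (pow_le_pow_left₀ (by norm_num) hn2 B)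
  · have hn1 : n = 1 := le_antisymm h1 hn
    rw [hn1, la_one, abs_one, Nat.cast_one, Real.one_rpow]

theorem conj_shift (s : ℂ) : conj s + 11 / 2 = conj (s + 11 / 2) := by
  have : (11 / 2 : ℂ) = ((11 / 2 : ℝ) : ℂ) := by push_cast; rfl
  rw [map_add, this, Complex.conj_ofReal]

/-- Task INS. -/
theorem t_INS : Pool.Agent.H380.BG.S_INS := by
  intro hprm hshrt hprim
  refine ⟨DD, ?_, rfl, fun s => rfl⟩
  exact
    { hd := by
        show 1 ≤ 2
        norm_num
      hmu := by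
        show ∀ j : Fin 2, 0 ≤ (![11 / 2, 13 / 2] : Fin 2 → ℝ) j
        rw [Fin.forall_fin_two]
        constructor
        · show (0 : ℝ) ≤ 11 / 2
          norm_num
        · show (0 : ℝ) ≤ 13 / 2
          norm_num
      hQ := by
        show (0 : ℝ) < 1
        norm_num
      hw := by
        show ‖(1 : ℂ)‖ = 1
        exact norm_one
      a1 := by
        show (la 1 : ℂ) = 1
        rw [la_one, Complex.ofReal_one]
      mult := by
        intro p n hp _ hn
        show ((la (p * n) : ℝ) : ℂ) = (la p : ℂ) * (la n : ℂ)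
        rw [la_mul ((Nat.Prime.coprime_iff_not_dvd hp).2 hn), Complex.ofReal_mul]
      gr := growth
      diff := (LamM_diff.comp (differentiable_id.add_const _)).const_mul 2
      strip := by
        intro K
        obtain ⟨M, hM, h⟩ := LamM_strip (-K + 11 / 2) (K + 11 / 2)
        refine ⟨2 * M, fun s hs => ?_⟩
        obtain ⟨h1, h2⟩ := abs_le.1 hs
        show ‖2 * LamM (s + 11 / 2)‖ ≤ 2 * M
        rw [norm_mul]
        have h5 : ‖(2 : ℂ)‖ = 2 := by norm_num
        rw [h5]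
        refine mul_le_mul_of_nonneg_left ?_ (by norm_num)
        exact h _ (by rw [re_shift]; linarith) (by rw [re_shift]; linarith)
      ser := by
        refine ⟨2, fun s hs => ?_⟩
        show 2 * LamM (s + 11 / 2) = ((1 : ℝ) : ℂ) ^ s *
          (∏ j : Fin 2, Gammaℝ (s + (((![11 / 2, 13 / 2] : Fin 2 → ℝ) j : ℝ) : ℂ))) *
          LSeries (fun n => (la n : ℂ)) s
        rw [Lam_ser hs, Complex.ofReal_one, Complex.one_cpow, one_mul, Fin.prod_univ_two]
        have e1 : (((![11 / 2, 13 / 2] : Fin 2 → ℝ) 0 : ℝ) : ℂ) = 11 / 2 := by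
          show (((11 / 2 : ℝ)) : ℂ) = 11 / 2
          push_cast
          rfl
        have e2 : (((![11 / 2, 13 / 2] : Fin 2 → ℝ) 1 : ℝ) : ℂ) = 13 / 2 := by
          show (((13 / 2 : ℝ)) : ℂ) = 13 / 2
          push_cast
          rfl
        rw [e1, e2]
      fe := by
        intro s
        show 2 * LamM (1 - s + 11 / 2) = 1 * conj (2 * LamM (conj s + 11 / 2))
        rw [one_mul, map_mul, conj_shift, LamM_conj, Complex.conj_conj, ← LamM_fe (s + 11 / 2)]
        have e1 : (1 : ℂ) - s + 11 / 2 = 12 - (s + 11 / 2) := by ring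
        have e2 : (conj (2 : ℂ)) = 2 := map_ofNat (starRingEnd ℂ) 2
        rw [e1, e2]
      shrt := hshrt
      prim := hprm _ hprim }

end Pool.Agent.H415.BG
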